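import Pool.Agent.V8H13.DM.Dom

set_option autoImplicit false
set_option linter.unusedSectionVars false
set_option linter.unusedVariables false

/-!
# The flow for three hubs
-/

namespace Pool.Agent.V8H13.DM

open Finset Pool.Agent.TH362.TF

variable {V : Type} {R : V → V → Prop} {d : Fin 3 → V} {κ : V → Fin 3} {W Z : V → Prop}

/-- near vertices -/
def Near (R : V → V → Prop) (W : V → Prop) (a b : V) : Prop :=
  ∃ x, W x ∧ (x = a ∨ R x a) ∧ (x = b ∨ R x b)

theorem fin3_third : ∀ a j k x : Fin 3, j ≠ a → k ≠ a → k ≠ j → x ≠ a → x ≠ j → x = k := by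
  decide

/-- the three values -/
def vv : Fin 3 → F := ![(1, 0), (0, 1), (1, 1)]

theorem vv_ne (i : Fin 3) : vv i ≠ 0 := by revert i; decide

theorem vv_add {i j : Fin 3} (h : i ≠ j) : vv i + vv j ≠ 0 := by revert i j; decide

theorem vv_sum (i : Fin 3) : vv (i + 1) + vv (i + 2) + vv i = 0 := by revert i; decide

theorem nsmulF (n : ℕ) (a : F) : n • a = if n % 2 = 1 then a else 0 := by
  induction n with
  | zero => simp
  | succ n ih =>
    rw [add_smul, one_smul, ih]
    rcases Nat.mod_two_eq_zero_or_one n with h | h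
    · have h1 : (n + 1) % 2 = 1 := by omega
      simp [h, h1]
    · have h1 : (n + 1) % 2 = 0 := by omega
      simp [h, h1, addF]

theorem Hub.kne (H : Hub R d κ W Z) {x y : V} (hx : W x) (hy : W y) (h : R x y) :
    κ y ≠ κ x := by
  rcases H.nb3 x y hx h with rfl | h
  · exact absurd hy (H.hubW _)
  · exact h.2

section
variable {n : V → Fin 3 → V}

theorem Hub.near (H : Hub R d κ W Z) (h : G34 R)
    (hn : ∀ x, W x → ∀ j, j ≠ κ x → R x (n x j) ∧ W (n x j) ∧ κ (n x j) = j)
    {a b : V} {j k : Fin 3} (ha : W a) (hb : W b) (hbj : κ b = j) (hj : j ≠ κ a) (hk : k ≠ κ a)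
    (hkj : k ≠ j) (hnear : Near R W a b) : b = n a j ∨ b = n (n a k) j := by
  obtain ⟨x, hx, h1, h2⟩ := hnear
  have key : R a b → b = n a j := by
    intro h3
    obtain ⟨h4, h5, h6⟩ := hn a ha j hj
    exact H.nbu a b _ ha hb h5 h3 h4 (hbj.trans h6.symm)
  rcases h1 with rfl | h1
  · rcases h2 with rfl | h2
    · exact absurd hbj.symm hj
    · exact Or.inl (key h2)
  · rcases h2 with rfl | h2
    · exact Or.inl (key (h.symm h1))
    · right
      have h3 : κ x ≠ κ a := (H.kne hx ha h1).symm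
      have h4 : κ x ≠ j := fun he => H.kne hx hb h2 (hbj.trans he.symm)
      have h5 : κ x = k := fin3_third (κ a) j k (κ x) hj hk hkj h3 h4
      obtain ⟨h6, h7, h8⟩ := hn a ha k hk
      have h9 : x = n a k := H.nbu a x _ ha hx h7 (h.symm h1) h6 (h5.trans h8.symm)
      rw [← h9]
      obtain ⟨h10, h11, h12⟩ := hn x hx j (Ne.symm h4)
      exact H.nbu x b _ hx hb h11 h2 h10 (hbj.trans h12.symm)

variable [Fintype V] [DecidableEq V]

open Classical in
/-- the classes -/
noncomputable def cls (κ : V → Fin 3) (W : V → Prop) (i : Fin 3) : Finset V :=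
  univ.filter (fun x => W x ∧ κ x = i)

theorem mem_cls {i : Fin 3} {x : V} : x ∈ cls κ W i ↔ W x ∧ κ x = i := by
  classical
  unfold cls
  rw [mem_filter]
  exact ⟨fun h => h.2, fun h => ⟨mem_univ _, h⟩⟩

theorem Hub.nn (H : Hub R d κ W Z) (h : G34 R)
    (hn : ∀ x, W x → ∀ j, j ≠ κ x → R x (n x j) ∧ W (n x j) ∧ κ (n x j) = j)
    {x : V} (hx : W x) {j : Fin 3} (hj : j ≠ κ x) : n (n x j) (κ x) = x := by
  obtain ⟨h1, h2, h3⟩ := hn x hx j hj
  obtain ⟨h4, h5, h6⟩ := hn (n x j) h2 (κ x) (by rw [h3]; exact hj.symm)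
  exact H.nbu (n x j) _ _ h2 h5 hx h4 (h.symm h1) h6

theorem Hub.sum_nb (H : Hub R d κ W Z) (h : G34 R)
    (hn : ∀ x, W x → ∀ j, j ≠ κ x → R x (n x j) ∧ W (n x j) ∧ κ (n x j) = j)
    {M : Type} [AddCommMonoid M] (g : V → M) {i j : Fin 3} (hij : i ≠ j) :
    ∑ x ∈ cls κ W i, g (n x j) = ∑ y ∈ cls κ W j, g y := by
  refine sum_bij' (fun x _ => n x j) (fun y _ => n y i) ?_ ?_ ?_ ?_ (fun _ _ => rfl)
  · intro x hx
    obtain ⟨h1, rfl⟩ := mem_cls.1 hx
    exact mem_cls.2 (hn x h1 j hij.symm).2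
  · intro y hy
    obtain ⟨h1, rfl⟩ := mem_cls.1 hy
    exact mem_cls.2 (hn y h1 i hij).2
  · intro x hx
    obtain ⟨h1, rfl⟩ := mem_cls.1 hx
    exact H.nn h hn h1 hij.symm
  · intro y hy
    obtain ⟨h1, rfl⟩ := mem_cls.1 hy
    exact H.nn h hn h1 hij

theorem Hub.card_eq (H : Hub R d κ W Z) (h : G34 R)
    (hn : ∀ x, W x → ∀ j, j ≠ κ x → R x (n x j) ∧ W (n x j) ∧ κ (n x j) = j) (i j : Fin 3) :
    (cls κ W i).card = (cls κ W j).card := by
  by_cases hij : i = j
  · rw [hij]
  · rw [card_eq_sum_ones, card_eq_sum_ones]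
    exact H.sum_nb h hn (fun _ => 1) hij

/-- three centres -/
theorem Hub.centres (H : Hub R d κ W Z) (h : G34 R)
    (hn : ∀ x, W x → ∀ j, j ≠ κ x → R x (n x j) ∧ W (n x j) ∧ κ (n x j) = j)
    (hm : 5 ≤ (cls κ W 0).card) :
    ∃ y : Fin 3 → V, (∀ i, W (y i) ∧ κ (y i) = i) ∧ ∀ i j, i ≠ j → ¬ Near R W (y i) (y j) := by
  have nsymm : ∀ a b, Near R W a b → Near R W b a := fun a b ⟨x, h1, h2, h3⟩ => ⟨x, h1, h3, h2⟩
  obtain ⟨y0, hy0⟩ : (cls κ W 0).Nonempty := card_pos.1 (by omega)
  obtain ⟨hW0, hκ0⟩ := mem_cls.1 hy0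
  have h1 : ({n y0 1, n (n y0 2) 1} : Finset V).card < (cls κ W 1).card := by
    have h2 := H.card_eq h hn 0 1
    have h3 := card_le_two (a := n y0 1) (b := n (n y0 2) 1)
    omega
  obtain ⟨y1, hy1, hy1'⟩ := exists_mem_notMem_of_card_lt_card h1
  obtain ⟨hW1, hκ1⟩ := mem_cls.1 hy1
  have h2 : ({n y0 2, n (n y0 1) 2, n y1 2, n (n y1 0) 2} : Finset V).card <
      (cls κ W 2).card := by
    have h2 := H.card_eq h hn 0 2
    have h3 := card_le_four (a := n y0 2) (b := n (n y0 1) 2) (c := n y1 2) (d := n (n y1 0) 2)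
    omega
  obtain ⟨y2, hy2, hy2'⟩ := exists_mem_notMem_of_card_lt_card h2
  obtain ⟨hW2, hκ2⟩ := mem_cls.1 hy2
  have n01 : ¬ Near R W y0 y1 := by
    intro hnear
    apply hy1'
    rw [mem_insert, mem_singleton]
    exact H.near h hn hW0 hW1 hκ1 (by rw [hκ0]; decide) (k := 2) (by rw [hκ0]; decide)
      (by decide) hnear
  have n02 : ¬ Near R W y0 y2 := by
    intro hnear
    apply hy2'
    have := H.near h hn hW0 hW2 hκ2 (by rw [hκ0]; decide) (k := 1) (by rw [hκ0]; decide)
      (by decide) hnear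
    simp only [mem_insert, mem_singleton]
    tauto
  have n12 : ¬ Near R W y1 y2 := by
    intro hnear
    apply hy2'
    have := H.near h hn hW1 hW2 hκ2 (by rw [hκ1]; decide) (k := 0) (by rw [hκ1]; decide)
      (by decide) hnear
    simp only [mem_insert, mem_singleton]
    tauto
  refine ⟨![y0, y1, y2], ?_, ?_⟩
  · intro i
    fin_cases i
    · exact ⟨hW0, hκ0⟩
    · exact ⟨hW1, hκ1⟩
    · exact ⟨hW2, hκ2⟩
  · intro i j hij
    fin_cases i <;> fin_cases j <;>
      first
        | exact absurd rfl hij | exact n01 | exact n02 | exact n12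
        | exact fun h => n01 (nsymm _ _ h) | exact fun h => n02 (nsymm _ _ h)
        | exact fun h => n12 (nsymm _ _ h)

/-- the flow for given centres -/
theorem Hub.flow (H : Hub R d κ W Z) (h : G34 R)
    (hn : ∀ x, W x → ∀ j, j ≠ κ x → R x (n x j) ∧ W (n x j) ∧ κ (n x j) = j)
    (P : V → F) (hP : ∀ a b, W a → W b → κ a ≠ κ b → Near R W a b → P a + P b ≠ 0)
    (hT : ∀ i, ∑ x ∈ cls κ W i, P x = 0 ∧ (∀ z, ¬ Z z) ∨
      ∑ x ∈ cls κ W i, P x = vv i ∧ ∃ z, Z z) [∀ x, DecidablePred (R x)] :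
    ∃ f : V → V → F, (∀ x y, f x y = f y x) ∧ (∀ x y, R x y → f x y ≠ 0) ∧
      ∀ x, ∑ y ∈ univ.filter (R x), f x y = 0 := by
  classical
  set S : V → F := fun x => P (n x (κ x + 1)) + P (n x (κ x + 2)) with hS
  set g : Fin 3 → V → F := fun i y => if W y then S y else vv i with hg
  set q : V → V → F := fun x y => (∑ i, if x = d i then g i y else 0) +
    (if W x ∧ W y then P y else 0) with hq
  have k1 : ∀ i : Fin 3, i + 1 ≠ i := by decide
  have k2 : ∀ i : Fin 3, i + 2 ≠ i := by decide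
  have k3 : ∀ i : Fin 3, i + 1 ≠ i + 2 := by decide
  have k4 : ∀ i j : Fin 3, j ≠ i → j = i + 1 ∨ j = i + 2 := by decide
  have hSne : ∀ x, W x → S x ≠ 0 := by
    intro x hx
    obtain ⟨a1, a2, a3⟩ := hn x hx _ (k1 (κ x))
    obtain ⟨b1, b2, b3⟩ := hn x hx _ (k2 (κ x))
    exact hP _ _ a2 b2 (by rw [a3, b3]; exact k3 _) ⟨x, hx, Or.inr a1, Or.inr b1⟩
  have hnotd : ∀ x, W x ∨ Z x → ∀ i, x ≠ d i := by
    rintro x (hx | hx) i rfl
    · exact H.hubW i hx
    · exact H.hubZ i hx
  have q0 : ∀ x y, (∀ i, x ≠ d i) → ¬ (W x ∧ W y) → q x y = 0 := by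
    intro x y h1 h2
    simp only [hq, h2, if_false, add_zero]
    exact sum_eq_zero fun i _ => if_neg (h1 i)
  have qd : ∀ i y, q (d i) y = g i y := by
    intro i y
    have h2 : ¬ (W (d i) ∧ W y) := fun h => H.hubW i h.1
    simp only [hq, h2, if_false, add_zero]
    rw [sum_eq_single i]
    · simp
    · intro j _ hj
      rw [if_neg]
      intro he
      exact hj (H.inj he).symm
    · intro hi; exact absurd (mem_univ i) hi
  have qW : ∀ x y, W x → W y → q x y = P y := by
    intro x y hx hy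
    simp only [hq, hx, hy, and_self, if_true]
    rw [sum_eq_zero, zero_add]
    intro i _
    exact if_neg (hnotd x (Or.inl hx) i)
  have fdW : ∀ i y, W y → q (d i) y + q y (d i) = S y := by
    intro i y hy
    rw [qd, q0 y (d i) (hnotd y (Or.inl hy)) (fun h => H.hubW i h.2), add_zero]
    simp only [hg, hy, if_true]
  have fdZ : ∀ i y, Z y → q (d i) y + q y (d i) = vv i := by
    intro i y hy
    have hy' : ¬ W y := fun h => H.dis y h hy
    rw [qd, q0 y (d i) (hnotd y (Or.inr hy)) (fun h => H.hubW i h.2), add_zero]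
    simp only [hg, hy', if_false]
  have fWW : ∀ x y, W x → W y → q x y + q y x = P y + P x := by
    intro x y hx hy
    rw [qW x y hx hy, qW y x hy hx]
  refine ⟨fun x y => q x y + q y x, fun x y => add_comm _ _, ?_, ?_⟩
  · intro x y hxy
    show q x y + q y x ≠ 0
    rcases H.cov x y hxy with hx | hx | ⟨i, rfl⟩
    · rcases H.nb3 x y hx hxy with rfl | ⟨hy, hne⟩
      · rw [add_comm, fdW _ _ hx]
        exact hSne x hx
      · rw [fWW x y hx hy]
        exact hP y x hy hx hne ⟨x, hx, Or.inr hxy, Or.inl rfl⟩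
    · obtain ⟨i, rfl⟩ := H.Z3 x y hx hxy
      rw [add_comm, fdZ _ _ hx]
      exact vv_ne i
    · rcases H.WZ y i hxy with hy | hy
      · rw [fdW i y hy]; exact hSne y hy
      · rw [fdZ i y hy]; exact vv_ne i
  · intro x
    show ∑ y ∈ univ.filter (R x), (q x y + q y x) = 0
    by_cases hdx : ∃ i, x = d i
    · obtain ⟨i, rfl⟩ := hdx
      rw [← sum_filter_add_sum_filter_not _ W]
      have e1 : (univ.filter (R (d i))).filter W = cls κ W i := by
        ext y
        rw [mem_filter, mem_filter, mem_cls]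
        constructor
        · rintro ⟨⟨-, h1⟩, h2⟩
          exact ⟨h2, ((H.W1 y h2 i).1 (h.symm h1)).symm⟩
        · rintro ⟨h1, h2⟩
          exact ⟨⟨mem_univ _, h.symm ((H.W1 y h1 i).2 h2.symm)⟩, h1⟩
      have e2 : (univ.filter (R (d i))).filter (fun y => ¬ W y) = univ.filter Z := by
        ext y
        rw [mem_filter, mem_filter, mem_filter]
        constructor
        · rintro ⟨⟨-, h1⟩, h2⟩
          exact ⟨mem_univ _, (H.WZ y i h1).resolve_left h2⟩
        · rintro ⟨-, h1⟩
          exact ⟨⟨mem_univ _, h.symm (H.Z1 y h1 i)⟩, fun h2 => H.dis y h2 h1⟩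
      rw [e1, e2]
      have e3 : ∑ y ∈ cls κ W i, (q (d i) y + q y (d i)) =
          ∑ y ∈ cls κ W (i + 1), P y + ∑ y ∈ cls κ W (i + 2), P y := by
        rw [← H.sum_nb h hn P (i := i) (j := i + 1) (k1 i).symm,
          ← H.sum_nb h hn P (i := i) (j := i + 2) (k2 i).symm, ← sum_add_distrib]
        refine sum_congr rfl fun y hy => ?_
        obtain ⟨h1, h2⟩ := mem_cls.1 hy
        rw [fdW i y h1, hS]
        simp only [h2]
      have e4 : ∑ y ∈ univ.filter Z, (q (d i) y + q y (d i)) = ∑ y ∈ univ.filter Z, vv i :=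
        sum_congr rfl fun y hy => fdZ i y (mem_filter.1 hy).2
      rw [e3, e4]
      by_cases hz : ∃ z, Z z
      · have h1 : ∀ i, ∑ x ∈ cls κ W i, P x = vv i := by
          intro i
          rcases hT i with h1 | h1
          · obtain ⟨z, hz⟩ := hz
            exact absurd hz (h1.2 z)
          · exact h1.1
        obtain ⟨z, hz⟩ := hz
        have h2 : univ.filter Z = {z} := by
          ext y
          rw [mem_filter, mem_singleton]
          constructor
          · rintro ⟨-, h2⟩; exact H.Zu y z h2 hz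
          · rintro rfl; exact ⟨mem_univ _, hz⟩
        rw [h1, h1, h2, sum_singleton]
        exact vv_sum i
      · have h1 : ∀ i, ∑ x ∈ cls κ W i, P x = 0 := by
          intro i
          rcases hT i with h1 | h1
          · exact h1.1
          · exact absurd h1.2 hz
        have h2 : univ.filter Z = ∅ := by
          rw [filter_eq_empty_iff]
          intro y _ hy
          exact hz ⟨y, hy⟩
        rw [h1, h1, h2, sum_empty]
        rfl
    by_cases hWx : W x
    · obtain ⟨a1, a2, a3⟩ := hn x hWx _ (k1 (κ x))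
      obtain ⟨b1, b2, b3⟩ := hn x hWx _ (k2 (κ x))
      have e1 : univ.filter (R x) = {d (κ x), n x (κ x + 1), n x (κ x + 2)} := by
        ext y
        rw [mem_filter, mem_insert, mem_insert, mem_singleton]
        constructor
        · rintro ⟨-, h1⟩
          rcases H.nb3 x y hWx h1 with h2 | ⟨h2, h3⟩
          · exact Or.inl h2
          · right
            rcases k4 (κ x) (κ y) h3 with h4 | h4
            · left
              exact H.nbu x y _ hWx h2 a2 h1 a1 (h4.trans a3.symm)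
            · right
              exact H.nbu x y _ hWx h2 b2 h1 b1 (h4.trans b3.symm)
        · rintro (rfl | rfl | rfl)
          · exact ⟨mem_univ _, (H.W1 x hWx _).2 rfl⟩
          · exact ⟨mem_univ _, a1⟩
          · exact ⟨mem_univ _, b1⟩
      have n1 : d (κ x) ∉ ({n x (κ x + 1), n x (κ x + 2)} : Finset V) := by
        rw [mem_insert, mem_singleton]
        rintro (h1 | h1)
        · exact H.hubW (κ x) (by rw [h1]; exact a2)
        · exact H.hubW (κ x) (by rw [h1]; exact b2)
      have n2 : n x (κ x + 1) ∉ ({n x (κ x + 2)} : Finset V) := by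
        rw [mem_singleton]
        intro h1
        have h2 := congrArg κ h1
        rw [a3, b3] at h2
        exact k3 _ h2
      rw [e1, sum_insert n1, sum_insert n2, sum_singleton, add_comm (q x (d (κ x))), fdW _ _ hWx,
        fWW x _ hWx a2, fWW x _ hWx b2, hS]
      have : ∀ a b c : F, a + b + (a + c + (b + c)) = 0 := by decide
      exact this _ _ _
    by_cases hZx : Z x
    · have e1 : univ.filter (R x) = univ.image d := by
        ext y
        rw [mem_filter, mem_image]
        constructor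
        · rintro ⟨-, h1⟩
          obtain ⟨i, h2⟩ := H.Z3 x y hZx h1
          exact ⟨i, mem_univ _, h2.symm⟩
        · rintro ⟨i, -, rfl⟩
          exact ⟨mem_univ _, H.Z1 x hZx i⟩
      rw [e1, sum_image (fun a _ b _ h => H.inj h)]
      have e2 : ∀ i, q x (d i) + q (d i) x = vv i := fun i => by rw [add_comm, fdZ i x hZx]
      simp only [e2]
      decide
    · have e1 : univ.filter (R x) = ∅ := by
        rw [filter_eq_empty_iff]
        intro y _ hy
        rcases H.cov x y hy with h1 | h1 | h1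
        · exact hWx h1
        · exact hZx h1
        · exact hdx h1
      rw [e1, sum_empty]

/-- a flow exists for three hubs and at least eighteen vertices -/
theorem Hub.exists_flow (H : Hub R d κ W Z) (h : G34 R) [∀ x, DecidablePred (R x)]
    (hm : 5 ≤ (cls κ W 0).card) :
    ∃ f : V → V → F, (∀ x y, f x y = f y x) ∧ (∀ x y, R x y → f x y ≠ 0) ∧
      ∀ x, ∑ y ∈ univ.filter (R x), f x y = 0 := by
  classical
  obtain ⟨w0, hw0⟩ : (cls κ W 0).Nonempty := card_pos.1 (by omega)
  have : Nonempty V := ⟨w0⟩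
  have hnb := H.nb
  choose! n hn using hnb
  have hcard := fun i => H.card_eq h hn i 0
  obtain ⟨y, hy, hyn⟩ := H.centres h hn hm
  set m := (cls κ W 0).card with hmdef
  have hsame : ∀ i, ∑ x ∈ cls κ W i, vv (κ x) = m • vv i := by
    intro i
    rw [← hcard i, ← sum_const]
    exact sum_congr rfl fun x hx => by rw [(mem_cls.1 hx).2]
  have hdiff : ∀ i, ∑ x ∈ cls κ W i, (if x = y (κ x) then 0 else vv (κ x)) =
      (m - 1) • vv i := by
    intro i
    have h1 : y i ∈ cls κ W i := mem_cls.2 (hy i)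
    rw [← add_sum_erase _ _ h1, if_pos (by rw [(hy i).2]), zero_add]
    have h2 : ((cls κ W i).erase (y i)).card = m - 1 := by
      rw [card_erase_of_mem h1, hcard i]
    rw [← h2, ← sum_const]
    refine sum_congr rfl fun x hx => ?_
    obtain ⟨h3, h4⟩ := mem_erase.1 hx
    have h5 := (mem_cls.1 h4).2
    rw [h5, if_neg h3]
  have hP1 : ∀ a b, W a → W b → κ a ≠ κ b → Near R W a b → vv (κ a) + vv (κ b) ≠ 0 :=
    fun a b _ _ h1 _ => vv_add h1
  have hP2 : ∀ a b, W a → W b → κ a ≠ κ b → Near R W a b →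
      (if a = y (κ a) then 0 else vv (κ a)) + (if b = y (κ b) then 0 else vv (κ b)) ≠ 0 := by
    intro a b ha hb hab hnear
    by_cases h1 : a = y (κ a)
    · by_cases h2 : b = y (κ b)
      · exfalso
        rw [h1, h2] at hnear
        exact hyn _ _ hab hnear
      · rw [if_pos h1, if_neg h2, zero_add]
        exact vv_ne _
    · by_cases h2 : b = y (κ b)
      · rw [if_neg h1, if_pos h2, add_zero]
        exact vv_ne _
      · rw [if_neg h1, if_neg h2]
        exact vv_add hab
  by_cases hz : ∃ z, Z z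
  · rcases Nat.mod_two_eq_zero_or_one m with hm2 | hm2
    · refine H.flow h hn _ hP2 (fun i => Or.inr ⟨?_, hz⟩)
      rw [hdiff, nsmulF, if_pos (by omega)]
    · refine H.flow h hn _ hP1 (fun i => Or.inr ⟨?_, hz⟩)
      rw [hsame, nsmulF, if_pos (by omega)]
  · rcases Nat.mod_two_eq_zero_or_one m with hm2 | hm2
    · refine H.flow h hn _ hP1 (fun i => Or.inl ⟨?_, fun z hz' => hz ⟨z, hz'⟩⟩)
      rw [hsame, nsmulF, if_neg (by omega)]
    · refine H.flow h hn _ hP2 (fun i => Or.inl ⟨?_, fun z hz' => hz ⟨z, hz'⟩⟩)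
      rw [hdiff, nsmulF, if_neg (by omega)]

end

/-- no three hubs in a minimal contraction -/
theorem G34.dom3 [Fintype V] [DecidableEq V] (h : G34 R) {D : Finset V} (hD : D.card ≤ 3)
    (hdom : Dom R D) [∀ x, DecidablePred (R x)] [DecidablePred (fun v => ∃ w, R v w)]
    (h18 : 18 ≤ (univ.filter (fun v => ∃ w, R v w)).card) :
    ∃ f : V → V → F, (∀ x y, f x y = f y x) ∧ (∀ x y, R x y → f x y ≠ 0) ∧
      ∀ x, ∑ y ∈ univ.filter (R x), f x y = 0 := by
  classical
  obtain ⟨w0, hw0, hw0'⟩ := exists_mem_notMem_of_card_lt_card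
    (show D.card < (univ.filter (fun v => ∃ w, R v w)).card by omega)
  obtain ⟨-, u0, hu0⟩ := mem_filter.1 hw0
  obtain ⟨d, κ, W, Z, H⟩ := h.hub hD hdom hw0' hu0
  refine H.exists_flow h ?_
  have : Nonempty V := ⟨w0⟩
  have hnb := H.nb
  choose! n hn using hnb
  have hcard := fun i => H.card_eq h hn i 0
  have hZ : (univ.filter Z).card ≤ 1 := by
    rw [card_le_one]
    intro a ha b hb
    exact H.Zu a b (mem_filter.1 ha).2 (mem_filter.1 hb).2
  have hsub : univ.filter (fun v => ∃ w, R v w) ⊆ univ.image d ∪ univ.filter Z ∪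
      (cls κ W 0 ∪ cls κ W 1 ∪ cls κ W 2) := by
    intro x hx
    obtain ⟨-, y, hy⟩ := mem_filter.1 hx
    have h3 : ∀ i : Fin 3, i = 0 ∨ i = 1 ∨ i = 2 := by decide
    simp only [mem_union, mem_image, mem_filter, mem_cls]
    rcases H.cov x y hy with h1 | h1 | ⟨i, h1⟩
    · rcases h3 (κ x) with h4 | h4 | h4
      · exact Or.inr (Or.inl (Or.inl ⟨h1, h4⟩))
      · exact Or.inr (Or.inl (Or.inr ⟨h1, h4⟩))
      · exact Or.inr (Or.inr ⟨h1, h4⟩)
    · exact Or.inl (Or.inr ⟨mem_univ _, h1⟩)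
    · exact Or.inl (Or.inl ⟨i, mem_univ _, h1.symm⟩)
  have h1 := card_le_card hsub
  have h2 := card_union_le (univ.image d ∪ univ.filter Z) (cls κ W 0 ∪ cls κ W 1 ∪ cls κ W 2)
  have h3 := card_union_le (univ.image d) (univ.filter Z)
  have h4 := card_union_le (cls κ W 0 ∪ cls κ W 1) (cls κ W 2)
  have h5 := card_union_le (cls κ W 0) (cls κ W 1)
  have h6 : (univ.image d).card ≤ 3 := by
    have := card_image_le (s := (univ : Finset (Fin 3))) (f := d)
    simpa using this
  have h7 := hcard 1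
  have h8 := hcard 2
  omega

end Pool.Agent.V8H13.DM
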