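import Pool.Agent.R140.PK.Lift

set_option autoImplicit false
set_option linter.unusedSectionVars false
set_option linter.unusedVariables false

/-!
# From a symmetric function on the pairs of neighbours to a flow, and the abstract hypotheses
-/

namespace Pool.Agent.V8H13.DM

open Finset Relation Pool.Agent.TH362.TF Pool.Agent.TH362.TF.Four Pool.Agent.R890.FF
  Pool.Agent.R140.PK

/-- A graph without triangles and circuits of length four, in which every vertex with a neighbour
has at least three neighbours. -/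
structure G34 {V : Type} (R : V → V → Prop) : Prop where
  symm : ∀ {a b}, R a b → R b a
  irr : ∀ {a}, ¬ R a a
  tri : ∀ {a b c}, R a b → R b c → R c a → False
  four : ∀ {a b c d}, a ≠ c → b ≠ d → R a b → R b c → R c d → R d a → False
  deg : ∀ {a b}, R a b → ∀ x y, ∃ c, R a c ∧ c ≠ x ∧ c ≠ y

variable {V E : Type} [Fintype V] [DecidableEq V] [DecidableEq E]

theorem Mc_G34 {s t : E → V} {S : Finset E} (h : Mc s t S) : G34 (Nb s t S) := by
  classical
  refine ⟨fun h => nb_comm h, fun h => h.1 rfl, fun h1 h2 h3 => h.tri h1 h2 h3,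
    fun h1 h2 h3 h4 h5 h6 => h.four h1 h2 h3 h4 h5 h6, ?_⟩
  intro a b hab x y
  have h1 : 0 < (univ.filter (Nb s t S a)).card :=
    card_pos.2 ⟨b, mem_filter.2 ⟨mem_univ _, hab⟩⟩
  have h2 := h.nb_ne_one a
  have h3 := h.nb_ne_two a
  have h4 : ({x, y} : Finset V).card < (univ.filter (Nb s t S a)).card := by
    have := Finset.card_le_two (a := x) (b := y)
    omega
  obtain ⟨w, hw, hw'⟩ := Finset.exists_mem_notMem_of_card_lt_card h4
  rw [mem_insert, mem_singleton, not_or] at hw'
  exact ⟨w, (mem_filter.1 hw).2, hw'.1, hw'.2⟩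

open Classical in
/-- at least eighteen vertices have neighbours -/
theorem Mc_card {s t : E → V} {S : Finset E} (h : Mc s t S) :
    18 ≤ (univ.filter (fun v => ∃ w, Nb s t S v w)).card := by
  refine h.odd18.trans (card_le_card ?_)
  intro y hy
  rw [h.odd_nb y] at hy
  have h1 : 0 < (univ.filter (Nb s t S y)).card := by omega
  obtain ⟨z, hz⟩ := card_pos.1 h1
  exact mem_filter.2 ⟨mem_univ _, z, (mem_filter.1 hz).2⟩

open Classical in
/-- a symmetric function on the pairs of neighbours gives a flow -/
theorem Mc_nz_of {s t : E → V} {S : Finset E} (h : Mc s t S) (f : V → V → F)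
    (hs : ∀ x y, f x y = f y x) (h0 : ∀ x y, Nb s t S x y → f x y ≠ 0)
    (hc : ∀ x, ∑ y ∈ univ.filter (Nb s t S x), f x y = 0) : False := by
  refine h.nz ⟨fun e => if s e = t e then (1, 0) else f (s e) (t e), ?_, ?_⟩
  · intro e he
    by_cases h1 : s e = t e
    · simp only [h1, if_true]; decide
    · simp only [h1, if_false]
      exact h0 _ _ ⟨fun h => h1 h.symm, e, he, Or.inl ⟨rfl, rfl⟩⟩
  · intro v
    unfold Cons
    have h1 : ∑ e ∈ S, ((if s e = v then (if s e = t e then ((1, 0) : F) else f (s e) (t e)) else 0)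
        + (if t e = v then (if s e = t e then ((1, 0) : F) else f (s e) (t e)) else 0)) =
        ∑ e ∈ cut s t S (fun u => decide (u = v)), f (s e) (t e) := by
      unfold cut
      rw [Finset.sum_filter]
      refine Finset.sum_congr rfl fun e _ => ?_
      by_cases h2 : s e = v
      · by_cases h3 : t e = v
        · have h5 : ((1, 0) : F) + (1, 0) = 0 := by decide
          simp only [h2, h3, if_true, h5]
          simp
        · have h4 : ¬ v = t e := fun h => h3 h.symm
          simp [h2, h3, h4]
      · by_cases h3 : t e = v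
        · simp [h2, h3]
        · simp [h2, h3]
    refine h1.trans ?_
    rw [← hc v]
    have hends : ∀ e ∈ cut s t S (fun u => decide (u = v)), ∃ z, z ≠ v ∧ Ends s t v z e := by
      intro e he
      have h2 := (mem_filter.1 he).2
      by_cases h3 : s e = v
      · refine ⟨t e, fun h4 => h2 (by simp [h3, h4]), Or.inl ⟨h3, rfl⟩⟩
      · by_cases h4 : t e = v
        · exact ⟨s e, h3, Or.inr ⟨rfl, h4⟩⟩
        · exact absurd (by simp [h3, h4]) h2
    have : Nonempty V := ⟨v⟩
    choose! z hz hE using hends
    refine sum_bij (fun e _ => z e) ?_ ?_ ?_ ?_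
    · intro e he
      exact mem_filter.2 ⟨mem_univ _, hz e he, e, (mem_filter.1 he).1, hE e he⟩
    · intro e he e' he' hee
      have h1 := hE e he
      have h2 := hE e' he'
      rw [← hee] at h2
      exact h.nopar (Ne.symm (hz e he)) (mem_filter.1 he).1 (mem_filter.1 he').1 h1 h2
    · intro w hw
      obtain ⟨-, h1, e, h2, h3⟩ := mem_filter.1 hw
      have he : e ∈ cut s t S (fun u => decide (u = v)) := by
        refine mem_filter.2 ⟨h2, ?_⟩
        rcases h3 with ⟨h4, h5⟩ | ⟨h4, h5⟩ <;> simp [h4, h5, h1]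
      refine ⟨e, he, ?_⟩
      have h6 := hE e he
      have h7 := hz e he
      rcases h3 with ⟨h4, h5⟩ | ⟨h4, h5⟩ <;> rcases h6 with ⟨h8, h9⟩ | ⟨h8, h9⟩
      · rw [← h9, h5]
      · exact absurd (h8.symm.trans h4) h7
      · exact absurd (h9.symm.trans h5) h7
      · rw [← h8, h4]
    · intro e he
      rcases hE e he with ⟨h8, h9⟩ | ⟨h8, h9⟩
      · rw [h8, h9]
      · rw [h8, h9, hs]

end Pool.Agent.V8H13.DM
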