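import Pool.Agent.V8H13.DM.Bridge

set_option autoImplicit false
set_option linter.unusedSectionVars false
set_option linter.unusedVariables false

/-!
# Graphs without short circuits and with a dominating set of three vertices
-/

namespace Pool.Agent.V8H13.DM

open Finset

variable {V : Type} {R : V → V → Prop}

/-- `D` dominates all vertices with neighbours -/
def Dom (R : V → V → Prop) (D : Finset V) : Prop :=
  ∀ w u, R w u → w ∈ D ∨ ∃ d ∈ D, R w d

theorem G34.uniq (h : G34 R) {w d x x' : V} (hwd : w ≠ d) (h1 : R w x) (h2 : R w x')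
    (h3 : x = d ∨ R x d) (h4 : x' = d ∨ R x' d) : x = x' := by
  by_contra hne
  rcases h3 with rfl | h3
  · rcases h4 with rfl | h4
    · exact hne rfl
    · exact h.tri h1 (h.symm h4) (h.symm h2)
  · rcases h4 with rfl | h4
    · exact h.tri h1 h3 (h.symm h2)
    · exact h.four hwd hne h1 h3 (h.symm h4) (h.symm h2)

section
variable [Fintype V] [DecidableEq V]

theorem G34.three_le (h : G34 R) {a b : V} (hab : R a b) (N : Finset V)
    (hN : ∀ x, R a x → x ∈ N) : 3 ≤ N.card := by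
  by_contra hlt
  have hb := hN b hab
  have h1 : ∃ x y : V, N ⊆ {x, y} := by
    rcases Nat.lt_or_ge N.card 2 with h2 | h2
    · have h3 : N.card = 1 := by
        have := card_pos.2 ⟨b, hb⟩
        omega
      obtain ⟨x, hx⟩ := card_eq_one.1 h3
      exact ⟨x, x, by rw [hx]; simp⟩
    · have h3 : N.card = 2 := by omega
      obtain ⟨x, y, _, hx⟩ := card_eq_two.1 h3
      exact ⟨x, y, by rw [hx]⟩
  obtain ⟨x, y, hxy⟩ := h1
  obtain ⟨c, h2, h3, h4⟩ := h.deg hab x y
  have := hxy (hN c h2)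
  rw [mem_insert, mem_singleton] at this
  rcases this with h5 | h5
  · exact h3 h5
  · exact h4 h5

/-- the dominators of the neighbours of a vertex outside a small dominating set -/
theorem G34.step1 (h : G34 R) {D : Finset V} (hD : D.card ≤ 3) (hdom : Dom R D) {w u : V}
    (hw : w ∉ D) (hu : R w u) :
    D.card = 3 ∧ (∀ d ∈ D, ∃ x, R w x ∧ (x = d ∨ R x d)) ∧
      (∀ d ∈ D, ∀ d' ∈ D, ∀ x, R w x → (x = d ∨ R x d) → (x = d' ∨ R x d') → d = d') := by
  classical
  have hg : ∀ x, R w x → ∃ d ∈ D, x = d ∨ R x d := by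
    intro x hx
    rcases hdom x w (h.symm hx) with h1 | ⟨d, h1, h2⟩
    · exact ⟨x, h1, Or.inl rfl⟩
    · exact ⟨d, h1, Or.inr h2⟩
  have : Nonempty V := ⟨w⟩
  choose! g hgD hg using hg
  have hne : ∀ d ∈ D, w ≠ d := fun d hd he => hw (he ▸ hd)
  have hinj : ∀ x ∈ univ.filter (R w), ∀ x' ∈ univ.filter (R w), g x = g x' → x = x' := by
    intro x hx x' hx' hxx
    have hx := (mem_filter.1 hx).2
    have hx' := (mem_filter.1 hx').2
    exact h.uniq (hne _ (hgD x hx)) hx hx' (hg x hx) (by rw [hxx]; exact hg x' hx')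
  have h3 : 3 ≤ (univ.filter (R w)).card :=
    h.three_le hu _ (fun x hx => mem_filter.2 ⟨mem_univ _, hx⟩)
  have him : (univ.filter (R w)).image g ⊆ D := by
    intro d hd
    obtain ⟨x, hx, rfl⟩ := mem_image.1 hd
    exact hgD x (mem_filter.1 hx).2
  have hcard : ((univ.filter (R w)).image g).card = (univ.filter (R w)).card :=
    card_image_of_injOn (fun x hx x' hx' => hinj x hx x' hx')
  have hle := card_le_card him
  have heq : (univ.filter (R w)).image g = D := eq_of_subset_of_card_le him (by omega)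
  have hsurj : ∀ d ∈ D, ∃ x, R w x ∧ g x = d := by
    intro d hd
    rw [← heq] at hd
    obtain ⟨x, hx, hxd⟩ := mem_image.1 hd
    exact ⟨x, (mem_filter.1 hx).2, hxd⟩
  refine ⟨by omega, ?_, ?_⟩
  · intro d hd
    obtain ⟨x, h4, h5⟩ := hsurj d hd
    exact ⟨x, h4, h5 ▸ hg x h4⟩
  · intro d hd d' hd' x hx h4 h5
    obtain ⟨y, h6, h7⟩ := hsurj d hd
    obtain ⟨y', h6', h7'⟩ := hsurj d' hd'
    have h8 : x = y := h.uniq (hne d hd) hx h6 h4 (h7 ▸ hg y h6)
    have h8' : x = y' := h.uniq (hne d' hd') hx h6' h5 (h7' ▸ hg y' h6')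
    rw [← h7, ← h7', ← h8, ← h8']

/-- the dominating set is independent -/
theorem G34.indep (h : G34 R) {D : Finset V} (hD : D.card ≤ 3) (hdom : Dom R D) {d d' : V}
    (hd : d ∈ D) (hd' : d' ∈ D) : ¬ R d d' := by
  intro hdd
  have hne : d ≠ d' := fun he => h.irr (he ▸ hdd)
  have h1 : ∀ w, R d w → w ∈ D.erase d := by
    intro w hw
    refine mem_erase.2 ⟨fun he => h.irr (he ▸ hw), ?_⟩
    by_contra hwD
    obtain ⟨-, -, h2⟩ := h.step1 hD hdom hwD (h.symm hw)
    exact hne (h2 d hd d' hd' d (h.symm hw) (Or.inl rfl) (Or.inr hdd))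
  have h2 := h.three_le hdd _ h1
  have h3 := card_erase_lt_of_mem hd
  omega

/-- two neighbours in the dominating set: all -/
theorem G34.all (h : G34 R) {D : Finset V} (hD : D.card ≤ 3) (hdom : Dom R D) {w d d' d'' : V}
    (hd : d ∈ D) (hd' : d' ∈ D) (hd'' : d'' ∈ D) (hne : d ≠ d') (hw : w ∉ D) (h1 : R w d)
    (h2 : R w d') : R w d'' := by
  obtain ⟨-, h3, -⟩ := h.step1 hD hdom hw h1
  obtain ⟨x, h4, h5⟩ := h3 d'' hd''
  rcases h5 with rfl | h5
  · exact h4
  · exfalso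
    have hx : x ∉ D := fun hx => h.indep hD hdom hx hd'' h5
    obtain ⟨-, -, h6⟩ := h.step1 hD hdom hx (h.symm h4)
    exact hne (h6 d hd d' hd' w (h.symm h4) (Or.inr h1) (Or.inr h2))

end

/-- The structure: three hubs, the classes of the neighbours of the hubs. -/
structure Hub (R : V → V → Prop) (d : Fin 3 → V) (κ : V → Fin 3) (W Z : V → Prop) : Prop where
  inj : Function.Injective d
  hubW : ∀ i, ¬ W (d i)
  hubZ : ∀ i, ¬ Z (d i)
  hub : ∀ i j, ¬ R (d i) (d j)
  dis : ∀ x, W x → ¬ Z x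
  W1 : ∀ x, W x → ∀ i, R x (d i) ↔ i = κ x
  Z1 : ∀ x, Z x → ∀ i, R x (d i)
  WZ : ∀ x i, R (d i) x → W x ∨ Z x
  Zu : ∀ x y, Z x → Z y → x = y
  nb : ∀ x, W x → ∀ j, j ≠ κ x → ∃ y, R x y ∧ W y ∧ κ y = j
  nbu : ∀ x y y', W x → W y → W y' → R x y → R x y' → κ y = κ y' → y = y'
  nb3 : ∀ x y, W x → R x y → y = d (κ x) ∨ (W y ∧ κ y ≠ κ x)
  Z3 : ∀ x y, Z x → R x y → ∃ i, y = d i
  cov : ∀ x y, R x y → W x ∨ Z x ∨ ∃ i, x = d i

theorem G34.hub [Fintype V] [DecidableEq V] (h : G34 R) {D : Finset V} (hD : D.card ≤ 3)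
    (hdom : Dom R D) {w0 u0 : V} (hw0 : w0 ∉ D) (hu0 : R w0 u0) :
    ∃ (d : Fin 3 → V) (κ : V → Fin 3) (W Z : V → Prop), Hub R d κ W Z := by
  classical
  obtain ⟨hD3, -, -⟩ := h.step1 hD hdom hw0 hu0
  obtain ⟨d0, d1, d2, h01, h02, h12, hDe⟩ := card_eq_three.1 hD3
  set d : Fin 3 → V := ![d0, d1, d2] with hd
  have hinj : Function.Injective d := by
    intro i j hij
    fin_cases i <;> fin_cases j <;> simp [hd] at hij ⊢ <;>
      first
        | exact h01 hij | exact h02 hij | exact h12 hij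
        | exact h01 hij.symm | exact h02 hij.symm | exact h12 hij.symm
  have hmem : ∀ i, d i ∈ D := by
    intro i
    rw [hDe]
    fin_cases i <;> simp [hd]
  have hmem' : ∀ x ∈ D, ∃ i, x = d i := by
    intro x hx
    rw [hDe, mem_insert, mem_insert, mem_singleton] at hx
    rcases hx with rfl | rfl | rfl
    · exact ⟨0, rfl⟩
    · exact ⟨1, rfl⟩
    · exact ⟨2, rfl⟩
  have hind : ∀ i j, ¬ R (d i) (d j) := fun i j => h.indep hD hdom (hmem i) (hmem j)
  have hκ : ∀ x, (∃ i, R x (d i) ∧ ∀ j, R x (d j) → j = i) →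
      ∃ i, R x (d i) ∧ ∀ j, R x (d j) → j = i := fun x hx => hx
  choose! κ hκ1 hκ2 using hκ
  have hall : ∀ x i j k, i ≠ j → R x (d i) → R x (d j) → R x (d k) := by
    intro x i j k hij h1 h2
    have hx : x ∉ D := by
      intro hx
      obtain ⟨l, rfl⟩ := hmem' x hx
      exact hind l i h1
    exact h.all hD hdom (hmem i) (hmem j) (hmem k) (fun he => hij (hinj he)) hx h1 h2
  have hWZ : ∀ x i, R x (d i) → (∃ i, R x (d i) ∧ ∀ j, R x (d j) → j = i) ∨ ∀ j, R x (d j) := by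
    intro x i h1
    by_cases h2 : ∀ j, R x (d j) → j = i
    · exact Or.inl ⟨i, h1, h2⟩
    · push Not at h2
      obtain ⟨j, h2, h3⟩ := h2
      exact Or.inr fun k => hall x i j k (Ne.symm h3) h1 h2
  have hcov : ∀ x y, R x y → (∃ i, R x (d i)) ∨ ∃ i, x = d i := by
    intro x y hxy
    rcases hdom x y hxy with h1 | ⟨e, h1, h2⟩
    · exact Or.inr (hmem' x h1)
    · obtain ⟨i, rfl⟩ := hmem' e h1
      exact Or.inl ⟨i, h2⟩
  refine ⟨d, κ, fun x => ∃ i, R x (d i) ∧ ∀ j, R x (d j) → j = i, fun x => ∀ j, R x (d j),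
    ⟨hinj, ?_, ?_, hind, ?_, ?_, fun x hx i => hx i, ?_, ?_, ?_, ?_, ?_, ?_, ?_⟩⟩
  · rintro i ⟨j, h1, -⟩
    exact hind i j h1
  · intro i h1
    exact hind i 0 (h1 0)
  · rintro x ⟨i, -, h1⟩ h2
    have h3 := h1 0 (h2 0)
    have h4 := h1 1 (h2 1)
    rw [← h3] at h4
    exact absurd h4 (by decide)
  · intro x hx i
    constructor
    · exact hκ2 x hx i
    · rintro rfl
      exact hκ1 x hx
  · intro x i h1
    exact hWZ x i (h.symm h1)
  · intro x y hx hy
    by_contra hne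
    exact h.four (a := x) (b := d 0) (c := y) (d := d 1) hne
      (fun he => absurd (hinj he) (by decide)) (hx 0) (h.symm (hy 0)) (hy 1) (h.symm (hx 1))
  · intro x hx j hj
    have hxD : x ∉ D := by
      intro hxD
      obtain ⟨l, rfl⟩ := hmem' x hxD
      exact hind l _ (hκ1 _ hx)
    obtain ⟨-, h3, -⟩ := h.step1 hD hdom hxD (hκ1 x hx)
    obtain ⟨y, h4, h5⟩ := h3 (d j) (hmem j)
    rcases h5 with rfl | h5
    · exact absurd (hκ2 x hx j h4) hj
    · refine ⟨y, h4, ?_⟩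
      rcases hWZ y j h5 with h6 | h6
      · exact ⟨h6, (hκ2 y h6 j h5).symm⟩
      · exact absurd (h.tri h4 (h6 (κ x)) (h.symm (hκ1 x hx))) (fun h => h)
  · intro x y y' hx hy hy' h1 h2 h3
    refine h.uniq (d := d (κ y)) ?_ h1 h2 (Or.inr (hκ1 y hy)) (Or.inr ?_)
    · rintro rfl
      exact hind _ _ (hκ1 _ hx)
    · rw [h3]; exact hκ1 y' hy'
  · intro x y hx h1
    rcases hcov y x (h.symm h1) with ⟨i, h2⟩ | ⟨i, rfl⟩
    · right
      rcases hWZ y i h2 with h3 | h3
      · refine ⟨h3, fun he => ?_⟩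
        have h4 := hκ1 y h3
        rw [he] at h4
        exact h.tri h1 h4 (h.symm (hκ1 x hx))
      · exact absurd (h.tri h1 (h3 (κ x)) (h.symm (hκ1 x hx))) (fun h => h)
    · left
      rw [hκ2 x hx i h1]
  · intro x y hx h1
    rcases hcov y x (h.symm h1) with ⟨i, h2⟩ | h2
    · exact absurd (h.tri h1 h2 (h.symm (hx i))) (fun h => h)
    · exact h2
  · intro x y hxy
    rcases hcov x y hxy with ⟨i, h2⟩ | h2
    · rcases hWZ x i h2 with h3 | h3
      · exact Or.inl h3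
      · exact Or.inr (Or.inl h3)
    · exact Or.inr (Or.inr h2)

end Pool.Agent.V8H13.DM
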